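import Mathlib
import Pool.Agent.H.MP_32e6ae_pr.C

namespace Pool.Agent.Results.MP_32e6ae_pr.NoRegime

open MeasureTheory ProbabilityTheory Filter
open scoped NNReal

/-- The walk from `x` that jumps at time `t` from `v` to `η t v`. -/
def walk {V : Type} (x : V) (η : ℕ → V → V) : ℕ → V
  | 0 => x
  | t + 1 => η t (walk x η t)

/-- Number of particles starting at `v`: one at the root, `(ω v).1` elsewhere. -/
def num {V : Type} [DecidableEq V] (o : V) (ω : V → ℕ × (ℕ → ℕ → V → V)) (v : V) : ℕ :=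
  if v = o then 1 else (ω v).1

/-- Vertices ever visited by an active particle; particle `j` at `v` is driven by `(ω v).2 j`. -/
def Vis {V : Type} [DecidableEq V] (o : V) (ω : V → ℕ × (ℕ → ℕ → V → V)) : Set V :=
  ⋂₀ {S | o ∈ S ∧ ∀ v ∈ S, ∀ j < num o ω v, ∀ t, walk v ((ω v).2 j) t ∈ S}

lemma br {V : Type} (x : V) (η : ℕ → V → V) :
    ∀ t, walk x η t = Pool.Agent.Lib.helper3.SRW.walk x η t
  | 0 => rfl
  | t + 1 => congrArg (η t) (br x η t)

theorem result : ∃ (V : Type) (_ : DecidableEq V) (T : SimpleGraph V) (_ : T.LocallyFinite) (o : V),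
    letI : MeasurableSpace V := ⊤
    Infinite V ∧ T.IsTree ∧
    (∃ c : ℝ, 0 < c ∧ ∀ᵐ η ∂(Measure.infinitePi fun _ : ℕ =>
        Measure.infinitePi fun v => uniformOn (T.neighborSet v)),
      ∀ᶠ n : ℕ in atTop, c * n ≤ T.dist o (walk o η n)) ∧
    ∀ r : ℝ≥0, 0 < r → ¬ ∀ᵐ ω ∂(Measure.infinitePi fun _ : V => (poissonMeasure r).prod
        (Measure.infinitePi fun _ : ℕ => Measure.infinitePi fun _ : ℕ =>
          Measure.infinitePi fun v => uniformOn (T.neighborSet v))),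
      {p : V × ℕ | p.1 ∈ Vis o ω ∧ p.2 < num o ω p.1 ∧
        ∃ t, walk p.1 ((ω p.1).2 p.2) t = o}.Finite := by
  simp only [Vis, br]
  exact Pool.Agent.H.MP_32e6ae_pr.main

end Pool.Agent.Results.MP_32e6ae_pr.NoRegime
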